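import Pool.Agent.Helper14.WK.StA

/-!
# Module KN3 of project WK: the trace commutes with the Hecke operators, any even weight
-/

set_option autoImplicit false

open UpperHalfPlane CongruenceSubgroup
open scoped MatrixGroups
open Pool.Agent.Helper14.WK
open Pool.Agent.Helper14.CV (G0)

namespace Pool.Agent.Helper7.WK

/-- Moebius action of an integral matrix. -/
private noncomputable def mob (A : Matrix (Fin 2) (Fin 2) ℤ) (z : ℂ) : ℂ :=
  ((A 0 0 : ℂ) * z + (A 0 1 : ℂ)) / ((A 1 0 : ℂ) * z + (A 1 1 : ℂ))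

/-- The denominator. -/
private noncomputable def jf (A : Matrix (Fin 2) (Fin 2) ℤ) (z : ℂ) : ℂ :=
  (A 1 0 : ℂ) * z + (A 1 1 : ℂ)

private lemma den_ne (A : Matrix (Fin 2) (Fin 2) ℤ) (hA : 0 < A.det) (z : ℂ) (hz : 0 < z.im) :
    ((A 1 0 : ℂ) * z + (A 1 1 : ℂ)) ≠ 0 := by
  intro h
  have him := congrArg Complex.im h
  have hre := congrArg Complex.re h
  simp at him hre
  have h10 : A 1 0 = 0 := by
    rcases him with h | h
    · exact_mod_cast h
    · exact absurd h hz.ne'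
  have h11 : A 1 1 = 0 := by
    rw [h10] at hre; simpa using hre
  rw [Matrix.det_fin_two, h10, h11] at hA
  simp at hA

private lemma mob_im (A : Matrix (Fin 2) (Fin 2) ℤ) (hA : 0 < A.det) (z : ℂ) (hz : 0 < z.im) :
    0 < (mob A z).im := by
  have hd := den_ne A hA z hz
  have hn : 0 < Complex.normSq ((A 1 0 : ℂ) * z + (A 1 1 : ℂ)) := Complex.normSq_pos.mpr hd
  have hdet : (0 : ℝ) < (A 0 0 : ℝ) * A 1 1 - A 0 1 * A 1 0 := by
    rw [Matrix.det_fin_two] at hA
    exact_mod_cast hA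
  have : (mob A z).im = z.im * ((A 0 0 : ℝ) * A 1 1 - A 0 1 * A 1 0) /
      Complex.normSq ((A 1 0 : ℂ) * z + (A 1 1 : ℂ)) := by
    unfold mob
    rw [Complex.div_im]
    simp only [Complex.add_im, Complex.mul_im, Complex.intCast_re, Complex.intCast_im,
      Complex.add_re, Complex.mul_re, zero_mul, sub_zero, add_zero]
    ring
  rw [this]
  positivity

private lemma mob_mul (A B : Matrix (Fin 2) (Fin 2) ℤ) (z : ℂ)
    (h : ((B 1 0 : ℂ) * z + (B 1 1 : ℂ)) ≠ 0) : mob (A * B) z = mob A (mob B z) := by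
  unfold mob
  simp only [Matrix.mul_apply, Fin.sum_univ_two]
  push_cast
  have e1 : (A 0 0 : ℂ) * (((B 0 0 : ℂ) * z + (B 0 1 : ℂ)) / ((B 1 0 : ℂ) * z + (B 1 1 : ℂ))) +
      (A 0 1 : ℂ) = ((A 0 0 : ℂ) * ((B 0 0 : ℂ) * z + (B 0 1 : ℂ)) +
        (A 0 1 : ℂ) * ((B 1 0 : ℂ) * z + (B 1 1 : ℂ))) / ((B 1 0 : ℂ) * z + (B 1 1 : ℂ)) := by
    rw [eq_div_iff h, add_mul, mul_assoc, div_mul_cancel₀ _ h]
  have e2 : (A 1 0 : ℂ) * (((B 0 0 : ℂ) * z + (B 0 1 : ℂ)) / ((B 1 0 : ℂ) * z + (B 1 1 : ℂ))) +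
      (A 1 1 : ℂ) = ((A 1 0 : ℂ) * ((B 0 0 : ℂ) * z + (B 0 1 : ℂ)) +
        (A 1 1 : ℂ) * ((B 1 0 : ℂ) * z + (B 1 1 : ℂ))) / ((B 1 0 : ℂ) * z + (B 1 1 : ℂ)) := by
    rw [eq_div_iff h, add_mul, mul_assoc, div_mul_cancel₀ _ h]
  rw [e1, e2, div_div_div_cancel_right₀ h]
  congr 1 <;> ring

private lemma jf_mul (A B : Matrix (Fin 2) (Fin 2) ℤ) (z : ℂ)
    (h : ((B 1 0 : ℂ) * z + (B 1 1 : ℂ)) ≠ 0) : jf (A * B) z = jf A (mob B z) * jf B z := by
  unfold mob jf
  simp only [Matrix.mul_apply, Fin.sum_univ_two]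
  push_cast
  field_simp
  ring

/-- the standard family of representatives -/
private def st (p : ℕ) (P : Fin (p + 1)) : Matrix (Fin 2) (Fin 2) ℤ :=
  if (P : ℕ) < p then !![1, ((P : ℕ) : ℤ); 0, (p : ℤ)] else !![(p : ℤ), 0; 0, 1]

private lemma st_det (p : ℕ) (P : Fin (p + 1)) : (st p P).det = p := by
  unfold st
  split_ifs <;> simp [Matrix.det_fin_two]

/-- the operator of weight `k = 2A + 2` and determinant `l` -/
private noncomputable def sl (l A : ℕ) (F : ℂ → ℂ) (δ : Matrix (Fin 2) (Fin 2) ℤ) (z : ℂ) : ℂ :=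
  (l : ℂ) ^ (2 * A + 1) * (jf δ z ^ (2 * A + 2))⁻¹ * F (mob δ z)

private lemma st_sum (l A : ℕ) (hl : 0 < l) (F : ℂ → ℂ) (z : ℂ) :
    ∑ P : Fin (l + 1), sl l A F (st l P) z =
      (l : ℂ) ^ ((2 * A + 2 : ℤ) - 1) * F (l * z) +
        (l : ℂ)⁻¹ * ∑ j ∈ Finset.range l, F ((z + j) / l) := by
  have hl0 : (l : ℂ) ≠ 0 := by exact_mod_cast hl.ne'
  have hz : (l : ℂ) ^ ((2 * A + 2 : ℤ) - 1) = (l : ℂ) ^ (2 * A + 1) := by
    have : ((2 * A + 2 : ℤ) - 1) = ((2 * A + 1 : ℕ) : ℤ) := by push_cast; ring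
    rw [this, zpow_natCast]
  rw [Fin.sum_univ_castSucc, add_comm, hz]
  congr 1
  · simp [st, mob, sl, jf]
  · rw [← Fin.sum_univ_eq_sum_range (fun j : ℕ => F ((z + j) / l)) l, Finset.mul_sum]
    refine Finset.sum_congr rfl fun j _ => ?_
    have : ((j : Fin l) : ℕ) < l := j.2
    simp only [st, mob, sl, jf, Fin.val_castSucc, this, if_true]
    simp
    left
    field_simp
    ring

/-- divisibility of all entries -/
private lemma dvd_mul_left' (l : ℤ) (A B : Matrix (Fin 2) (Fin 2) ℤ)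
    (h : ∀ i j, l ∣ B i j) : ∀ i j, l ∣ (A * B) i j := by
  intro i j
  rw [Matrix.mul_apply]
  exact Finset.dvd_sum fun k _ => Dvd.dvd.mul_left (h k j) _

private lemma dvd_mul_right' (l : ℤ) (A B : Matrix (Fin 2) (Fin 2) ℤ)
    (h : ∀ i j, l ∣ A i j) : ∀ i j, l ∣ (A * B) i j := by
  intro i j
  rw [Matrix.mul_apply]
  exact Finset.dvd_sum fun k _ => Dvd.dvd.mul_right (h i k) _

private lemma st_distinct (p : ℕ) (hp : p.Prime) (P P' : Fin (p + 1)) (hne : P ≠ P')
    (h : ∀ i j, (p : ℤ) ∣ (st p P * (st p P').adjugate) i j) : False := by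
  have hp1 : ¬ (p : ℤ) ∣ 1 := by
    intro hh
    have := Int.natAbs_dvd_natAbs.mpr hh
    simp at this
    exact hp.one_lt.ne' this
  unfold st at h
  split_ifs at h with h1 h2 h2
  · have h01 := h 0 1
    rw [Matrix.adjugate_fin_two_of] at h01
    simp [Matrix.mul_apply, Fin.sum_univ_two] at h01
    have h3 : ((P : ℕ) : ℤ) ≡ ((P' : ℕ) : ℤ) [ZMOD (p : ℤ)] := by
      refine (Int.modEq_iff_dvd).mpr ?_
      have h4 : (p : ℤ) ∣ -(-((P' : ℕ) : ℤ) + ((P : ℕ) : ℤ)) := (dvd_neg).mpr h01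
      have h5 : ((P' : ℕ) : ℤ) - ((P : ℕ) : ℤ) = -(-((P' : ℕ) : ℤ) + ((P : ℕ) : ℤ)) := by ring
      rw [h5]; exact h4
    have h6 : (P : ℕ) ≡ (P' : ℕ) [MOD p] := (Int.natCast_modEq_iff).mp h3
    have h7 : (P : ℕ) = (P' : ℕ) := Nat.ModEq.eq_of_lt_of_lt h6 h1 h2
    exact hne (Fin.ext h7)
  · have h00 := h 0 0
    rw [Matrix.adjugate_fin_two_of] at h00
    simp [Matrix.mul_apply, Fin.sum_univ_two] at h00
    exact hp1 h00
  · have h11 := h 1 1
    rw [Matrix.adjugate_fin_two_of] at h11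
    simp [Matrix.mul_apply, Fin.sum_univ_two] at h11
    exact hp1 h11
  · have h8 : (P : ℕ) = p := by have := P.2; omega
    have h9 : (P' : ℕ) = p := by have := P'.2; omega
    exact hne (Fin.ext (h8.trans h9.symm))

/-- Multiplying by matrices of determinant one does not change the divisibility. -/
private lemma dist_conj (l : ℤ) (L L' R S S' : Matrix (Fin 2) (Fin 2) ℤ) (hL : L.det = 1)
    (hL' : L'.det = 1) (hR : R.det = 1)
    (h : ∀ i j, l ∣ ((L * S * R) * (L' * S' * R).adjugate) i j) :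
    ∀ i j, l ∣ (S * S'.adjugate) i j := by
  have eL : L.adjugate * L = 1 := by rw [Matrix.adjugate_mul, hL, one_smul]
  have eL' : L'.adjugate * L' = 1 := by rw [Matrix.adjugate_mul, hL', one_smul]
  have eR : R * R.adjugate = 1 := by rw [Matrix.mul_adjugate, hR, one_smul]
  have e : S * S'.adjugate = L.adjugate * ((L * S * R) * (L' * S' * R).adjugate) * L' := by
    rw [Matrix.adjugate_mul_distrib, Matrix.adjugate_mul_distrib]
    calc S * S'.adjugate
        = (L.adjugate * L) * S * (R * R.adjugate) * S'.adjugate * (L'.adjugate * L') := by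
          rw [eL, eL', eR, Matrix.one_mul, Matrix.mul_one, Matrix.mul_one]
      _ = L.adjugate * ((L * S * R) * (R.adjugate * (S'.adjugate * L'.adjugate))) * L' := by
          simp only [Matrix.mul_assoc]
  rw [e]
  exact dvd_mul_right' _ _ _ (dvd_mul_left' _ _ _ h)

/-- The Hecke relation for an arbitrary family of representatives. -/
private lemma fam (h1 : SKH1) (hm : SKMod) (hN1 : Pool.Agent.Helper14.CV.StN1) (N : ℕ)
    (hN : NeZero N) (A : ℕ) (f : CuspForm (G0 N) (2 * A + 2)) (l : ℕ) (lam : ℂ) (hl : l.Prime)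
    (hlN : ¬ l ∣ N) (hf : HeckeEigK f l lam) (δ : Fin (l + 1) → Matrix (Fin 2) (Fin 2) ℤ)
    (hdet : ∀ P, (δ P).det = l) (hlow : ∀ P, (N : ℤ) ∣ δ P 1 0)
    (hdis : ∀ P P', P ≠ P' → ¬ ∀ i j, (l : ℤ) ∣ (δ P * (δ P').adjugate) i j)
    (z : ℂ) (hz : 0 < z.im) : ∑ P : Fin (l + 1), sl l A (fzK f) (δ P) z = lam * fzK f z := by
  obtain ⟨π, hπ⟩ := hN1 N l hl hlN δ hdet hlow hdis
  have hstpos : ∀ P, 0 < (st l P).det := by
    intro P; rw [st_det]; exact_mod_cast hl.pos
  have e1 : ∀ P, sl l A (fzK f) (δ P) z = sl l A (fzK f) (st l (π P)) z := by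
    intro P
    obtain ⟨γ, hγdet, hγlow, hγ⟩ := hπ P
    have hγ' : δ P = γ * st l (π P) := hγ
    have hden := den_ne _ (hstpos (π P)) z hz
    have him := mob_im _ (hstpos (π P)) z hz
    have hd := hγdet
    rw [Matrix.det_fin_two] at hd
    have hmod := hm N hN A f (γ 0 0) (γ 0 1) (γ 1 0) (γ 1 1) hd hγlow _ him
    have hγden := den_ne γ (by rw [hγdet]; norm_num) _ him
    unfold sl
    rw [hγ', mob_mul _ _ _ hden, jf_mul _ _ _ hden]
    have hmod' : fzK f (mob γ (mob (st l (π P)) z)) =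
        jf γ (mob (st l (π P)) z) ^ (2 * A + 2) * fzK f (mob (st l (π P)) z) := hmod
    rw [hmod']
    have hj : jf γ (mob (st l (π P)) z) ≠ 0 := hγden
    have hj2 : jf (st l (π P)) z ≠ 0 := hden
    rw [mul_pow]
    field_simp
  calc ∑ P : Fin (l + 1), sl l A (fzK f) (δ P) z
      = ∑ P : Fin (l + 1), sl l A (fzK f) (st l (π P)) z :=
        Finset.sum_congr rfl fun P _ => e1 P
    _ = ∑ P : Fin (l + 1), sl l A (fzK f) (st l P) z :=
        Equiv.sum_comp π (fun P => sl l A (fzK f) (st l P) z)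
    _ = lam * fzK f z := by
        rw [st_sum l A hl.pos]
        have := (h1 N hN (2 * A + 2) f l lam hl.pos).1 hf 1 isCoprime_one_left z hz
        simpa using this

/-- the matrices `σ_i` and their inverses -/
private def sg (M : ℕ) (i : ℕ) : Matrix (Fin 2) (Fin 2) ℤ := !![1, 0; (i : ℤ) * (M : ℤ), 1]
private def sgi (M : ℕ) (i : ℕ) : Matrix (Fin 2) (Fin 2) ℤ := !![1, 0; -((i : ℤ) * (M : ℤ)), 1]

private lemma sgi_sg (M i : ℕ) : sgi M i * sg M i = 1 := by
  ext a b; fin_cases a <;> fin_cases b <;> simp [sg, sgi, Matrix.mul_apply, Fin.sum_univ_two]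

theorem hKN3 (h1 : SKH1) (hm : SKMod) (hn : Pool.Agent.Helper14.CV.StN1) : SKN3 := by
  intro p M hM hpM A f g l lam hp hpdM hl hlp hf hlM hg
  have hM0 : M ≠ 0 := hM.out
  have hl0 : (l : ℂ) ≠ 0 := by exact_mod_cast hl.ne_zero
  have hlN : ¬ l ∣ p * M := by
    intro h
    rcases (Nat.Prime.dvd_mul hl).mp h with h' | h'
    · exact hlp ((Nat.prime_dvd_prime_iff_eq hl hp).mp h')
    · exact hlM h'
  have sgdet : ∀ i, (sg M i).det = 1 := by intro i; simp [sg, Matrix.det_fin_two]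
  have sgidet : ∀ i, (sgi M i).det = 1 := by intro i; simp [sgi, Matrix.det_fin_two]
  -- Bezout
  obtain ⟨u, v, huv⟩ : ∃ u v : ℤ, u * (l : ℤ) - v * ((p : ℤ) * M) = 1 := by
    have hc : IsCoprime (l : ℤ) ((p * M : ℕ) : ℤ) := by
      rw [Nat.isCoprime_iff_coprime]
      exact (Nat.Prime.coprime_iff_not_dvd hl).mpr hlN
    obtain ⟨a, b, hab⟩ := hc
    refine ⟨a, -b, ?_⟩
    push_cast at hab
    linarith
  let g0 : Matrix (Fin 2) (Fin 2) ℤ := !![u, v; (p : ℤ) * M, (l : ℤ)]
  have g0det : g0.det = 1 := by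
    simp only [g0, Matrix.det_fin_two_of]
    linarith
  let gP : Fin (l + 1) → Matrix (Fin 2) (Fin 2) ℤ := fun P => if (P : ℕ) < l then 1 else g0
  have gPdet : ∀ P, (gP P).det = 1 := by
    intro P
    simp only [gP]
    split_ifs
    · simp
    · exact g0det
  have gPlow : ∀ P, (M : ℤ) ∣ gP P 1 0 := by
    intro P
    simp only [gP]
    split_ifs
    · simp
    · simp [g0]
  have hstpos : ∀ P, 0 < (st l P).det := by
    intro P; rw [st_det]; exact_mod_cast hl.pos
  -- the values of g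
  have hg' : ∀ z : ℂ, 0 < z.im → fzK g z =
      ∑ i ∈ Finset.range p, (jf (sg M i) z ^ (2 * A + 2))⁻¹ * fzK f (mob (sg M i) z) := by
    intro z hz
    rw [hg z hz]
    refine Finset.sum_congr rfl fun i _ => ?_
    simp [jf, mob, sg]
  refine (h1 M hM (2 * A + 2) g l lam hl.pos).2 ?_
  intro z hz
  rw [← st_sum l A hl.pos]
  -- the modified family for g
  have e1 : ∀ P, sl l A (fzK g) (st l P) z = sl l A (fzK g) (gP P * st l P) z := by
    intro P
    have hden := den_ne _ (hstpos P) z hz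
    have him := mob_im _ (hstpos P) z hz
    have hd := gPdet P
    rw [Matrix.det_fin_two] at hd
    have hmod := hm M hM A g (gP P 0 0) (gP P 0 1) (gP P 1 0) (gP P 1 1) hd (gPlow P) _ him
    have hγden := den_ne (gP P) (by rw [gPdet]; norm_num) _ him
    unfold sl
    rw [mob_mul _ _ _ hden, jf_mul _ _ _ hden]
    have hmod' : fzK g (mob (gP P) (mob (st l P) z)) =
        jf (gP P) (mob (st l P) z) ^ (2 * A + 2) * fzK g (mob (st l P) z) := hmod
    rw [hmod']
    have hj : jf (gP P) (mob (st l P) z) ≠ 0 := hγden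
    have hj2 : jf (st l P) z ≠ 0 := hden
    rw [mul_pow]
    field_simp
  -- expansion in the sigma
  have hdpos : ∀ P, 0 < (gP P * st l P).det := by
    intro P
    rw [Matrix.det_mul, gPdet, one_mul]; exact hstpos P
  have e2 : ∀ P, sl l A (fzK g) (gP P * st l P) z =
      ∑ i ∈ Finset.range p, sl l A (fzK f) (sg M i * (gP P * st l P)) z := by
    intro P
    have hden := den_ne _ (hdpos P) z hz
    have him := mob_im _ (hdpos P) z hz
    unfold sl
    rw [hg' _ him, Finset.mul_sum]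
    refine Finset.sum_congr rfl fun i _ => ?_
    rw [mob_mul _ _ _ hden, jf_mul _ _ _ hden, mul_pow, mul_inv]
    ring
  -- each i
  have e3 : ∀ i' : ℕ, ∑ P : Fin (l + 1), sl l A (fzK f) (sg M (i' * l % p) * (gP P * st l P)) z =
      lam * ((jf (sg M i') z ^ (2 * A + 2))⁻¹ * fzK f (mob (sg M i') z)) := by
    intro i'
    set i : ℕ := i' * l % p with hi
    have hii : (i : ℤ) = i' * l - p * ((i' * l / p : ℕ) : ℤ) := by
      have := Nat.mod_add_div (i' * l) p
      rw [← hi] at this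
      have h2 : ((i + p * (i' * l / p) : ℕ) : ℤ) = ((i' * l : ℕ) : ℤ) := by rw [this]
      push_cast at h2 ⊢
      linarith
    set t : ℤ := ((i' * l / p : ℕ) : ℤ) with ht
    obtain ⟨m, hm'⟩ := hpdM
    have hmZ : (M : ℤ) = p * m := by exact_mod_cast hm'
    let ep : Fin (l + 1) → Matrix (Fin 2) (Fin 2) ℤ := fun P =>
      (sg M i * gP P) * st l P * sgi M i'
    have hepdet : ∀ P, (ep P).det = l := by
      intro P
      simp only [ep, Matrix.det_mul, sgdet, sgidet, gPdet, st_det]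
      ring
    have heplow : ∀ P, ((p * M : ℕ) : ℤ) ∣ ep P 1 0 := by
      intro P
      simp only [ep, gP, st]
      split_ifs with h
      · refine ⟨-t - i * i' * m * (P : ℕ), ?_⟩
        simp [sg, sgi, Matrix.mul_apply, Fin.sum_univ_two]
        rw [hii, hmZ]
        ring
      · refine ⟨-t + i * v * M + l - i * i' * m * v, ?_⟩
        simp [sg, sgi, g0, Matrix.mul_apply, Fin.sum_univ_two]
        have hul : u * (l : ℤ) = 1 + v * ((p : ℤ) * M) := by linarith
        have : (i : ℤ) * M * u * l = i * M * (u * l) := by ring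
        rw [hii, hmZ] at *
        linear_combination (exp := 1) (((i' : ℤ) * l - p * t) * (p * m)) * hul
    have hepdis : ∀ P P', P ≠ P' → ¬ ∀ i j, (l : ℤ) ∣ (ep P * (ep P').adjugate) i j := by
      intro P P' hne hall
      refine st_distinct l hl P P' hne ?_
      refine dist_conj l (sg M i * gP P) (sg M i * gP P') (sgi M i') (st l P) (st l P') ?_ ?_
        (sgidet _) hall
      · rw [Matrix.det_mul, sgdet, gPdet, one_mul]
      · rw [Matrix.det_mul, sgdet, gPdet, one_mul]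
    have hsden := den_ne (sg M i') (by rw [sgdet]; norm_num) z hz
    have hsim := mob_im (sg M i') (by rw [sgdet]; norm_num) z hz
    have hfam := fam h1 hm hn (p * M) hpM A f l lam hl hlN hf ep hepdet heplow hepdis _ hsim
    have e4 : ∀ P, sl l A (fzK f) (sg M i * (gP P * st l P)) z =
        (jf (sg M i') z ^ (2 * A + 2))⁻¹ * sl l A (fzK f) (ep P) (mob (sg M i') z) := by
      intro P
      have a1 : sg M i * (gP P * st l P) = ep P * sg M i' := by
        simp only [ep]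
        rw [Matrix.mul_assoc (sg M i * gP P * st l P), sgi_sg, Matrix.mul_one, Matrix.mul_assoc]
      rw [a1]
      unfold sl
      rw [mob_mul _ _ _ hsden, jf_mul _ _ _ hsden, mul_pow, mul_inv]
      ring
    rw [Finset.sum_congr rfl fun P _ => e4 P, ← Finset.mul_sum, hfam]
    ring
  -- the permutation of the residues
  have himg : (Finset.range p).image (fun i' => i' * l % p) = Finset.range p := by
    refine Finset.eq_of_subset_of_card_le ?_ ?_
    · intro x hx
      obtain ⟨y, _, rfl⟩ := Finset.mem_image.mp hx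
      exact Finset.mem_range.mpr (Nat.mod_lt _ hp.pos)
    · rw [Finset.card_image_of_injOn]
      intro a ha b hb hab
      have ha' : a < p := by simpa using ha
      have hb' : b < p := by simpa using hb
      have h2 : a * l ≡ b * l [MOD p] := hab
      have hc : Nat.gcd p l = 1 := (Nat.coprime_primes hp hl).mpr (Ne.symm hlp)
      have h3 : a ≡ b [MOD p] := Nat.ModEq.cancel_right_of_coprime hc h2
      exact Nat.ModEq.eq_of_lt_of_lt h3 ha' hb'
  have hinj : Set.InjOn (fun i' => i' * l % p) (Finset.range p : Set ℕ) := by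
    intro a ha b hb hab
    have ha' : a < p := by simpa using ha
    have hb' : b < p := by simpa using hb
    have h2 : a * l ≡ b * l [MOD p] := hab
    have hc : Nat.gcd p l = 1 := (Nat.coprime_primes hp hl).mpr (Ne.symm hlp)
    have h3 : a ≡ b [MOD p] := Nat.ModEq.cancel_right_of_coprime hc h2
    exact Nat.ModEq.eq_of_lt_of_lt h3 ha' hb'
  calc ∑ P : Fin (l + 1), sl l A (fzK g) (st l P) z
      = ∑ P : Fin (l + 1), ∑ i ∈ Finset.range p, sl l A (fzK f) (sg M i * (gP P * st l P)) z :=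
        Finset.sum_congr rfl fun P _ => (e1 P).trans (e2 P)
    _ = ∑ i ∈ Finset.range p, ∑ P : Fin (l + 1), sl l A (fzK f) (sg M i * (gP P * st l P)) z :=
        Finset.sum_comm
    _ = ∑ i ∈ (Finset.range p).image (fun i' => i' * l % p),
          ∑ P : Fin (l + 1), sl l A (fzK f) (sg M i * (gP P * st l P)) z := by rw [himg]
    _ = ∑ i' ∈ Finset.range p,
          ∑ P : Fin (l + 1), sl l A (fzK f) (sg M (i' * l % p) * (gP P * st l P)) z :=
        Finset.sum_image hinj
    _ = ∑ i' ∈ Finset.range p,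
          lam * ((jf (sg M i') z ^ (2 * A + 2))⁻¹ * fzK f (mob (sg M i') z)) :=
        Finset.sum_congr rfl fun i' _ => e3 i'
    _ = lam * fzK g z := by rw [← Finset.mul_sum, ← hg' z hz]

end Pool.Agent.Helper7.WK
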